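import Pool.Agent.H29.THC.All
import Pool.Agent.H29.THC.Stmt

/-!
# The Lindelof hypothesis on average over thin cosets of Hecke characters

Let `K` be a number field of degree `m` and `f = l g k^2`, where `k` is odd, `g` and `k` have the same
prime divisors and `l` is prime to `k`. Let `χ` be a Hecke character modulo `f` which is primitive at the
primes of `k`, and let `ψ` run through all Hecke characters modulo `l g` (a family of about
`h_K R_K N(l g)` characters, the cube root of `N(f)` if `l = 1` and `g = k`). The mean square of the values
`L(1/2 + i t_ψ, χ ψ)` is bounded by `h_K R_K (N(l g) + N(k))`, up to powers of the archimedean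
parameters and an arbitrarily small power of `|d_K| N(f)`, uniformly in `K`, `l`, `g`, `k`, `χ` and the
points `t_ψ`. So the bound of the Lindelof hypothesis holds on average over the coset of `χ` as soon as
`N(k) ≤ N(l g)`, and the exceptional set is small.

Outline of the proof. By the theory of Hecke the completed `L`-function is the Mellin transform
(over the ray `T > 0`, after integration over the logarithmic unit torus) of sums of rotated Gaussians over
the classes of `M / f M`. Bessel's inequality over the characters `ψ` reduces the mean square to the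
mean square of theta functions with the coefficient `χ` over the residue classes modulo `l g`. These are
squared, and the differences lie in `l g M`; the correlations `χ(x + h) conj(χ(x))` have period
`k^2 M` in `x`, so Poisson summation modulo `k^2` leads to complete sums, which are evaluated by
`p`-adic stationary phase in a finite ring. The sum over `h` and the dual sum are theta functions
of unimodular lattices, whose mean values over the classes and the unit torus are bounded by means of
the functional equation of the Dedekind zeta function (Siegel's mean value property for the lattices of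
a number field), uniformly in `K`. On the dual side the transfer from `ft χ` to `χ` is made by Gauss
sums.
-/

set_option autoImplicit false

open NumberField NumberField.InfinitePlace NumberField.Units
  NumberField.Units.dirichletUnitTheorem MeasureTheory Set Filter Complex

namespace Pool.Agent.Results.MP_52e316_nt.ThinCosets

open Pool.Agent.H23.LB Pool.Agent.H29.TC Pool.Agent.H29.THC

theorem result (m : ℕ) (hm : 1 ≤ m) (R : ℝ) (hR : 0 < R) :
    ∃ A c : ℝ, 0 < c ∧ ∀ ε : ℝ, 0 < ε → ∃ B : ℝ, ∀ (K : Type) [Field K] [NumberField K],
      Module.finrank ℚ K = m → ∀ l g k : Ideal (𝓞 K), GK l g k →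
      (fam K (l * g) R).Finite ∧
      c * (classNumber K * regulator K * Phi K (l * g)) ≤ (fam K (l * g) R).ncard ∧
      ∃ L : HC K (fk l g k) → ℂ → ℂ, IsCont K (fk l g k) L ∧
        ∀ χ : HC K (fk l g k), χ ∈ fam K (fk l g k) R → Prk k χ → ∀ T : ℝ, 1 ≤ T →
          MeanSq K l g k L χ R T (B * T ^ A * QQ K (fk l g k) ^ ε *
            (classNumber K * regulator K * (Ideal.absNorm (l * g) + Ideal.absNorm k))) ∧
          (Ideal.absNorm k ≤ Ideal.absNorm (l * g) → ∀ δ : ℝ, 0 < δ →
            ((Exc K l g k L χ R T ((T * QQ K (fk l g k)) ^ δ)).ncard : ℝ) ≤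
              B * T ^ A * QQ K (fk l g k) ^ (ε - 2 * δ) * (fam K (l * g) R).ncard) := by
  obtain ⟨A, hA⟩ := Pool.Agent.H29.THC.All.final m hm R hR
  obtain ⟨c, hc, hcK⟩ := Pool.Agent.H29.THC.Base.c_CH m R hR
  refine ⟨A, c, hc, fun ε hε => ?_⟩
  obtain ⟨B, hB⟩ := hA ε hε
  refine ⟨B, fun K _ _ hK l g k hG => ?_⟩
  have hlg : l * g ≠ ⊥ := mul_ne_zero hG.l_ne hG.g_ne
  have hfin := Pool.Agent.H29.THC.All.a_FN K (l * g) R hlg
  refine ⟨hfin, ?_, ?_⟩
  · obtain ⟨Y, hY1, hY2⟩ := hcK K hK (l * g) hlg
    refine hY2.trans ?_
    have h1 := Set.ncard_le_ncard (s := (Y : Set (HC K (l * g)))) (fun χ hχ => hY1 χ hχ) hfin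
    rw [Set.ncard_coe_finset] at h1
    exact_mod_cast h1
  obtain ⟨L, h1, h2⟩ := hB K hK l g k hG
  exact ⟨L, h1, fun χ hχ hP T hT => ⟨(h2 χ hχ hP T hT).1, (h2 χ hχ hP T hT).2.2⟩⟩

end Pool.Agent.Results.MP_52e316_nt.ThinCosets
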